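import Pool.Agent.Helper95.PW.Defs

/-!
# Poincaré inequality in a cube
-/

set_option autoImplicit false

open MeasureTheory Set Filter Topology
open scoped ENNReal

namespace Pool.Agent.Helper9.PW

open Pool.Agent.Helper95.PW

theorem cube_eq (c : R3) (l : ℝ) : cube c l = Set.pi univ fun i => Ico (c i) (c i + l) := by
  ext y
  simp [cube, Set.mem_pi]

theorem cube_meas (c : R3) (l : ℝ) : MeasurableSet (cube c l) := by
  rw [cube_eq]
  exact MeasurableSet.univ_pi fun _ => measurableSet_Ico

theorem cube_convex (c : R3) (l : ℝ) : Convex ℝ (cube c l) := by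
  rw [cube_eq]
  exact convex_pi fun i _ => convex_Ico _ _

theorem cube_vol (c : R3) {l : ℝ} (hl : 0 ≤ l) : volume (cube c l) = ENNReal.ofReal (l ^ 3) := by
  rw [cube_eq, Real.volume_pi_Ico]
  simp only [add_sub_cancel_left]
  rw [Finset.prod_const, Finset.card_univ, Fintype.card_fin, ← ENNReal.ofReal_pow hl]

theorem cube_sub (c : R3) (l : ℝ) : cube c l ⊆ Icc c (fun i => c i + l) := by
  intro y hy
  exact ⟨fun i => (hy i).1, fun i => (hy i).2.le⟩

theorem cube_int {f : R3 → ℝ} (hf : Continuous f) (c : R3) (l : ℝ) :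
    IntegrableOn f (cube c l) :=
  (hf.continuousOn.integrableOn_compact isCompact_Icc).mono_set (cube_sub c l)

lemma lint_scale {G : R3 → ℝ≥0∞} (hG : Measurable G) {K : Set R3} (hKm : MeasurableSet K)
    (hK : Convex ℝ K) {x : R3} (hx : x ∈ K) {t : ℝ} (ht : 1 / 2 ≤ t) (ht1 : t ≤ 1) :
    ∫⁻ y in K, G ((1 - t) • x + t • y) ≤ 2 ^ 3 * ∫⁻ y in K, G y := by
  have ht0 : 0 < t := by linarith
  have hGi : Measurable (K.indicator G) := hG.indicator hKm
  calc ∫⁻ y in K, G ((1 - t) • x + t • y)
      = ∫⁻ y, K.indicator (fun y => G ((1 - t) • x + t • y)) y :=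
        (lintegral_indicator hKm _).symm
    _ ≤ ∫⁻ y, K.indicator G ((1 - t) • x + t • y) := by
        apply lintegral_mono
        intro y
        by_cases hy : y ∈ K
        · have : (1 - t) • x + t • y ∈ K := hK hx hy (by linarith) ht0.le (by ring)
          simp only [indicator_of_mem hy, indicator_of_mem this, le_refl]
        · simp only [indicator_of_notMem hy, zero_le]
    _ = ∫⁻ y, K.indicator G ((1 - t) • x + y) ∂(Measure.map (fun y : R3 => t • y) volume) := by
        rw [lintegral_map]
        · exact hGi.comp (measurable_const_add _)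
        · exact measurable_const_smul t
    _ = ENNReal.ofReal |(t ^ 3)⁻¹| * ∫⁻ y, K.indicator G ((1 - t) • x + y) := by
        rw [Measure.map_addHaar_smul _ ht0.ne', lintegral_smul_measure]
        simp
    _ = ENNReal.ofReal |(t ^ 3)⁻¹| * ∫⁻ y, K.indicator G y := by
        rw [lintegral_add_left_eq_self]
    _ ≤ 2 ^ 3 * ∫⁻ y in K, G y := by
        rw [lintegral_indicator hKm]
        apply mul_le_mul_left
        have h1 : |(t ^ 3)⁻¹| ≤ 2 ^ 3 := by
          rw [abs_of_pos (by positivity), ← inv_pow]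
          apply pow_le_pow_left₀ (by positivity)
          rw [inv_le_comm₀ ht0 (by norm_num)]
          linarith
        calc ENNReal.ofReal |(t ^ 3)⁻¹| ≤ ENNReal.ofReal (2 ^ 3) := ENNReal.ofReal_le_ofReal h1
          _ = 2 ^ 3 := by
            rw [ENNReal.ofReal_pow (by norm_num)]
            norm_num

lemma lint_double {G : R3 → ℝ≥0∞} (hG : Measurable G) {K : Set R3} (hKm : MeasurableSet K)
    (hK : Convex ℝ K) {t : ℝ} (ht : 0 ≤ t) (ht1 : t ≤ 1) :
    ∫⁻ x in K, ∫⁻ y in K, G ((1 - t) • x + t • y) ≤ 2 ^ 3 * (∫⁻ y in K, G y) * volume K := by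
  by_cases h : 1 / 2 ≤ t
  · calc ∫⁻ x in K, ∫⁻ y in K, G ((1 - t) • x + t • y)
        ≤ ∫⁻ x in K, 2 ^ 3 * ∫⁻ y in K, G y := by
          apply setLIntegral_mono' hKm
          intro x hx
          exact lint_scale hG hKm hK hx h ht1
      _ = _ := by rw [setLIntegral_const]
  · have hm : Measurable (Function.uncurry fun x y : R3 => G ((1 - t) • x + t • y)) := by
      apply hG.comp
      fun_prop
    rw [lintegral_lintegral_swap hm.aemeasurable]
    calc ∫⁻ y in K, ∫⁻ x in K, G ((1 - t) • x + t • y)
        ≤ ∫⁻ y in K, 2 ^ 3 * ∫⁻ x in K, G x := by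
          apply setLIntegral_mono' hKm
          intro y hy
          have h1 := lint_scale hG hKm hK hy (t := 1 - t) (by linarith) (by linarith)
          refine le_trans (le_of_eq ?_) h1
          congr 1
          ext x
          congr 1
          rw [add_comm]
          congr 2
          ring
      _ = _ := by rw [setLIntegral_const]

/-- the sum of the squares of the partial derivatives -/
theorem grd_cont {v : R3 → ℝ} (hv : ContDiff ℝ 1 v) : Continuous (grd v) := by
  unfold grd pd
  have h := hv.continuous_fderiv one_ne_zero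
  fun_prop

theorem fderiv_sq (v : R3 → ℝ) (z w : R3) {l : ℝ} (hw : ∀ i, |w i| ≤ l) :
    (fderiv ℝ v z w) ^ 2 ≤ 3 * l ^ 2 * grd v z := by
  have h1 : fderiv ℝ v z w = ∑ i, w i * pd i v z := by
    have h2 : w = ∑ i, w i • (Pi.single i 1 : R3) := by
      ext j
      simp [Finset.sum_apply, Pi.single_apply]
    conv_lhs => rw [h2]
    rw [map_sum]
    refine Finset.sum_congr rfl fun i _ => ?_
    rw [map_smul, smul_eq_mul]
    rfl
  rw [h1]
  refine (Finset.sum_mul_sq_le_sq_mul_sq _ _ _).trans ?_
  unfold grd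
  refine mul_le_mul_of_nonneg_right ?_ (Finset.sum_nonneg fun i _ => sq_nonneg _)
  rw [Fin.sum_univ_three]
  have h3 : ∀ i, w i ^ 2 ≤ l ^ 2 := fun i => by
    rw [← sq_abs (w i)]
    exact pow_le_pow_left₀ (abs_nonneg _) (hw i) 2
  linarith [h3 0, h3 1, h3 2]

theorem pointwise {v : R3 → ℝ} (hv : ContDiff ℝ 1 v) {l : ℝ} {x y : R3}
    (hxy : ∀ i, |y i - x i| ≤ l) :
    (v y - v x) ^ 2 ≤ 3 * l ^ 2 * ∫ t in (0:ℝ)..1, grd v ((1 - t) • x + t • y) := by
  have hd : ∀ t : ℝ, HasDerivAt (fun t : ℝ => v ((1 - t) • x + t • y))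
      (fderiv ℝ v ((1 - t) • x + t • y) (y - x)) t := by
    intro t
    have h1 : HasDerivAt (fun t : ℝ => (1 - t) • x) ((-1 : ℝ) • x) t := by
      have := ((hasDerivAt_id t).const_sub 1).smul_const x
      simpa using this
    have h2 : HasDerivAt (fun t : ℝ => t • y) ((1 : ℝ) • y) t := by
      have := (hasDerivAt_id t).smul_const y
      simpa using this
    have h3 := h1.add h2
    have h4 : (-1 : ℝ) • x + (1 : ℝ) • y = y - x := by
      rw [neg_smul, one_smul, one_smul]; abel
    rw [h4] at h3
    exact ((hv.differentiable one_ne_zero) ((1 - t) • x + t • y)).hasFDerivAt.comp_hasDerivAt t h3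
  have hcf : Continuous fun t : ℝ => fderiv ℝ v ((1 - t) • x + t • y) (y - x) := by
    have h := hv.continuous_fderiv one_ne_zero
    fun_prop
  have h1 := intervalIntegral.integral_eq_sub_of_hasDerivAt (a := 0) (b := 1)
    (fun t _ => hd t) (hcf.intervalIntegrable _ _)
  have h2 : v y - v x = ∫ t in (0:ℝ)..1, fderiv ℝ v ((1 - t) • x + t • y) (y - x) := by
    rw [h1]; simp
  set F : ℝ → ℝ := fun t => fderiv ℝ v ((1 - t) • x + t • y) (y - x) with hF
  set I : ℝ := ∫ t in (0:ℝ)..1, F t with hI
  have h3 : I ^ 2 ≤ ∫ t in (0:ℝ)..1, F t ^ 2 := by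
    have h4 : 0 ≤ ∫ t in (0:ℝ)..1, (F t - I) ^ 2 :=
      intervalIntegral.integral_nonneg zero_le_one fun t _ => sq_nonneg _
    have h5 : ∫ t in (0:ℝ)..1, (F t - I) ^ 2 =
        (∫ t in (0:ℝ)..1, F t ^ 2) - I ^ 2 := by
      have h6 : ∀ t, (F t - I) ^ 2 = F t ^ 2 - (2 * I) * F t + I ^ 2 := fun t => by ring
      simp only [h6]
      rw [intervalIntegral.integral_add, intervalIntegral.integral_sub,
        intervalIntegral.integral_const_mul, intervalIntegral.integral_const, ← hI]
      · simp; ring
      · exact (hcf.pow 2).intervalIntegrable _ _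
      · exact (hcf.const_mul _).intervalIntegrable _ _
      · exact ((hcf.pow 2).sub (hcf.const_mul _)).intervalIntegrable _ _
      · exact continuous_const.intervalIntegrable _ _
    linarith
  rw [h2]
  refine h3.trans ?_
  rw [← intervalIntegral.integral_const_mul]
  refine intervalIntegral.integral_mono_on zero_le_one ((hcf.pow 2).intervalIntegrable _ _) ?_
    fun t _ => ?_
  · have := grd_cont hv
    exact (Continuous.intervalIntegrable (by fun_prop) _ _)
  · exact fderiv_sq v _ _ fun i => by simpa using hxy i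

/-- Poincaré inequality in a cube -/
theorem cube_poincare {v : R3 → ℝ} (hv : ContDiff ℝ 1 v) (c : R3) {l : ℝ} (hl : 0 < l) :
    ∫ y in cube c l, v y ^ 2 ≤
      (l ^ 3)⁻¹ * (∫ y in cube c l, v y) ^ 2 + 12 * l ^ 2 * ∫ y in cube c l, grd v y := by
  set K := cube c l with hK
  have hKm : MeasurableSet K := cube_meas c l
  have hKc : Convex ℝ K := cube_convex c l
  have hvol : volume K = ENNReal.ofReal (l ^ 3) := cube_vol c hl.le
  have hg := grd_cont hv
  have hg0 : ∀ y, 0 ≤ grd v y := fun y => Finset.sum_nonneg fun i _ => sq_nonneg _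
  have hG : Measurable fun z => ENNReal.ofReal (grd v z) := hg.measurable.ennreal_ofReal
  have hvc : Continuous v := hv.continuous
  -- the double integral
  have hmain : ∫⁻ x in K, ∫⁻ y in K, ENNReal.ofReal ((v y - v x) ^ 2) ≤
      ENNReal.ofReal (3 * l ^ 2) * (2 ^ 3 * (∫⁻ y in K, ENNReal.ofReal (grd v y)) * volume K) := by
    calc ∫⁻ x in K, ∫⁻ y in K, ENNReal.ofReal ((v y - v x) ^ 2)
        ≤ ∫⁻ x in K, ∫⁻ y in K, ENNReal.ofReal (3 * l ^ 2) *
            ∫⁻ t in Ioc (0 : ℝ) 1, ENNReal.ofReal (grd v ((1 - t) • x + t • y)) := by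
          apply setLIntegral_mono' hKm
          intro x hx
          apply setLIntegral_mono' hKm
          intro y hy
          have h1 := pointwise hv (l := l) (x := x) (y := y) fun i => by
            have hx' := hx i
            have hy' := hy i
            rw [abs_le]
            constructor <;> linarith [hx'.1, hx'.2, hy'.1, hy'.2]
          refine (ENNReal.ofReal_le_ofReal h1).trans (le_of_eq ?_)
          rw [ENNReal.ofReal_mul (by positivity)]
          congr 1
          rw [intervalIntegral.integral_of_le zero_le_one,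
            ofReal_integral_eq_lintegral_ofReal]
          · have h3 : Continuous fun t : ℝ => grd v ((1 - t) • x + t • y) := by fun_prop
            exact (h3.intervalIntegrable 0 1).1
          · exact Eventually.of_forall fun t => hg0 _
      _ = ENNReal.ofReal (3 * l ^ 2) * ∫⁻ x in K, ∫⁻ y in K,
            ∫⁻ t in Ioc (0 : ℝ) 1, ENNReal.ofReal (grd v ((1 - t) • x + t • y)) := by
          rw [← lintegral_const_mul' _ _ ENNReal.ofReal_ne_top]
          congr 1
          ext x
          rw [lintegral_const_mul' _ _ ENNReal.ofReal_ne_top]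
      _ = ENNReal.ofReal (3 * l ^ 2) * ∫⁻ t in Ioc (0 : ℝ) 1, ∫⁻ x in K, ∫⁻ y in K,
            ENNReal.ofReal (grd v ((1 - t) • x + t • y)) := by
          congr 1
          have h1 : ∀ x : R3, ∫⁻ y in K,
              ∫⁻ t in Ioc (0 : ℝ) 1, ENNReal.ofReal (grd v ((1 - t) • x + t • y)) =
              ∫⁻ t in Ioc (0 : ℝ) 1, ∫⁻ y in K, ENNReal.ofReal (grd v ((1 - t) • x + t • y)) := by
            intro x
            apply lintegral_lintegral_swap
            apply Measurable.aemeasurable
            exact hG.comp (by fun_prop)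
          simp_rw [h1]
          apply lintegral_lintegral_swap
          apply Measurable.aemeasurable
          have h2 : Measurable (fun p : (R3 × ℝ) × R3 =>
              ENNReal.ofReal (grd v ((1 - p.1.2) • p.1.1 + p.1.2 • p.2))) :=
            hG.comp (by fun_prop)
          exact h2.lintegral_prod_right'
      _ ≤ ENNReal.ofReal (3 * l ^ 2) * ∫⁻ t in Ioc (0 : ℝ) 1,
            2 ^ 3 * (∫⁻ y in K, ENNReal.ofReal (grd v y)) * volume K := by
          apply mul_le_mul_right
          apply setLIntegral_mono' measurableSet_Ioc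
          intro t ht
          exact lint_double hG hKm hKc ht.1.le ht.2
      _ = _ := by
          rw [setLIntegral_const]
          simp
  -- the left side
  have hKf : IsFiniteMeasure (volume.restrict K) := ⟨by
    rw [Measure.restrict_apply_univ, hvol]; exact ENNReal.ofReal_lt_top⟩
  have hi1 : IntegrableOn v K := cube_int hvc c l
  have hi2 : IntegrableOn (fun y => v y ^ 2) K := cube_int (hvc.pow 2) c l
  have hvr : volume.real K = l ^ 3 := by
    rw [Measure.real, hvol, ENNReal.toReal_ofReal (by positivity)]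
  set S1 := ∫ y in K, v y with hS1
  set S2 := ∫ y in K, v y ^ 2 with hS2
  have hin : ∀ x : R3, ∫ y in K, (v y - v x) ^ 2 = S2 - 2 * v x * S1 + l ^ 3 * v x ^ 2 := by
    intro x
    have h6 : ∀ y, (v y - v x) ^ 2 = v y ^ 2 - (2 * v x) * v y + v x ^ 2 := fun y => by ring
    simp only [h6]
    rw [integral_add, integral_sub, integral_const_mul, setIntegral_const, hvr, smul_eq_mul]
    · exact hi2
    · exact hi1.const_mul _
    · exact hi2.sub (hi1.const_mul _)
    · exact integrable_const _
  have hout : ∫ x in K, ∫ y in K, (v y - v x) ^ 2 = 2 * l ^ 3 * S2 - 2 * S1 ^ 2 := by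
    simp only [hin]
    have h7 : ∀ x, S2 - 2 * v x * S1 + l ^ 3 * v x ^ 2 =
        S2 - (2 * S1) * v x + l ^ 3 * v x ^ 2 := fun x => by ring
    simp only [h7]
    rw [integral_add, integral_sub, integral_const_mul, integral_const_mul, setIntegral_const, hvr,
      smul_eq_mul]
    · ring
    · exact integrable_const _
    · exact hi1.const_mul _
    · exact (integrable_const _).sub (hi1.const_mul _)
    · exact hi2.const_mul _
  have hlhs : ENNReal.ofReal (2 * l ^ 3 * S2 - 2 * S1 ^ 2) =
      ∫⁻ x in K, ∫⁻ y in K, ENNReal.ofReal ((v y - v x) ^ 2) := by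
    rw [← hout, ofReal_integral_eq_lintegral_ofReal]
    · congr 1
      ext x
      rw [ofReal_integral_eq_lintegral_ofReal]
      · have : Continuous fun y => (v y - v x) ^ 2 := by fun_prop
        exact cube_int this c l
      · exact Eventually.of_forall fun y => sq_nonneg _
    · simp only [hin]
      have : Continuous fun x => S2 - 2 * v x * S1 + l ^ 3 * v x ^ 2 := by fun_prop
      exact cube_int this c l
    · exact Eventually.of_forall fun x => integral_nonneg fun y => sq_nonneg _
  rw [← hlhs, hvol, ← ofReal_integral_eq_lintegral_ofReal (cube_int hg c l)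
    (Eventually.of_forall hg0)] at hmain
  have hI0 : 0 ≤ ∫ y in K, grd v y := integral_nonneg hg0
  have h8 : ENNReal.ofReal (3 * l ^ 2) * (2 ^ 3 * ENNReal.ofReal (∫ y in K, grd v y) *
      ENNReal.ofReal (l ^ 3)) =
      ENNReal.ofReal (3 * l ^ 2 * (8 * (∫ y in K, grd v y) * l ^ 3)) := by
    rw [ENNReal.ofReal_mul (p := 3 * l ^ 2) (by positivity),
      ENNReal.ofReal_mul (p := 8 * ∫ y in K, grd v y) (by positivity),
      ENNReal.ofReal_mul (p := 8) (by norm_num)]
    have h12 : ENNReal.ofReal 8 = 2 ^ 3 := by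
      rw [show (8 : ℝ) = 2 ^ 3 by norm_num, ENNReal.ofReal_pow (by norm_num)]
      norm_num
    rw [h12]
  rw [h8] at hmain
  have h9 := (ENNReal.ofReal_le_ofReal_iff (by positivity)).1 hmain
  have hl3 : 0 < l ^ 3 := by positivity
  have h10 : S2 * l ^ 3 ≤ S1 ^ 2 + 12 * l ^ 2 * (∫ y in K, grd v y) * l ^ 3 := by nlinarith
  have h11 : S2 ≤ (S1 ^ 2 + 12 * l ^ 2 * (∫ y in K, grd v y) * l ^ 3) / l ^ 3 := by
    rw [le_div_iff₀ hl3]; exact h10
  refine h11.trans (le_of_eq ?_)
  field_simp

end Pool.Agent.Helper9.PW
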